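import Pool.Agent.W2helper81.IW.Defs
import Pool.Agent.W5h77.MB.Cyc
import Pool.Agent.W5h33.DF.Field

/-!
# Finite decomposition in the cyclotomic tower
-/

set_option autoImplicit false

namespace Pool.Agent.W2helper92.IW

open IntermediateField Module Pool.Agent.Q60.MU Pool.Agent.W5h77.MB NumberField
open scoped Pointwise

/-- The order of `ℓ` modulo `p ^ (k + 1)` is at least `p ^ (k + 1) / c`. -/
theorem ord_bound {p ℓ : ℕ} (hp : p.Prime) (hp2 : p ≠ 2) (hl : ℓ.Prime) (hne : ℓ ≠ p) :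
    ∃ c : ℕ, 0 < c ∧ ∀ k : ℕ, p ^ (k + 1) ≤ c * orderOf (ℓ : ZMod (p ^ (k + 1))) := by
  have hF : Fact p.Prime := ⟨hp⟩
  have hodd : Odd p := hp.odd_of_ne_two hp2
  have hcop : Nat.Coprime ℓ p := (Nat.coprime_primes hl hp).2 hne
  have hp1 : p - 1 ≠ 0 := by
    have := hp.two_le
    omega
  have hx1 : 1 < ℓ ^ (p - 1) := Nat.one_lt_pow hp1 hl.one_lt
  have hdvd : p ∣ ℓ ^ (p - 1) - 1 := by
    have h1 : ℓ ^ (p - 1) ≡ 1 [MOD p] := by
      rw [← Nat.totient_prime hp]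
      exact Nat.ModEq.pow_totient hcop
    exact (Nat.modEq_iff_dvd' hx1.le).1 h1.symm
  have hnd : ¬ p ∣ ℓ ^ (p - 1) := fun h => by
    have h1 := hp.dvd_of_dvd_pow h
    exact hne ((Nat.prime_dvd_prime_iff_eq hp hl).1 h1).symm
  refine ⟨p ^ padicValNat p (ℓ ^ (p - 1) - 1), pow_pos hp.pos _, fun k => ?_⟩
  have hNZ : NeZero (p ^ (k + 1)) := ⟨(pow_pos hp.pos _).ne'⟩
  have hcopk : Nat.Coprime ℓ (p ^ (k + 1)) := hcop.pow_right _
  have hn0 : 0 < orderOf (ℓ : ZMod (p ^ (k + 1))) := by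
    rw [orderOf_pos_iff, isOfFinOrder_iff_pow_eq_one]
    refine ⟨(p ^ (k + 1)).totient, Nat.totient_pos.2 (pow_pos hp.pos _), ?_⟩
    have h1 := (ZMod.natCast_eq_natCast_iff _ _ _).2 (Nat.ModEq.pow_totient hcopk)
    simpa using h1
  have hn := pow_orderOf_eq_one (ℓ : ZMod (p ^ (k + 1)))
  generalize orderOf (ℓ : ZMod (p ^ (k + 1))) = n at hn0 hn ⊢
  have h2 : p ^ (k + 1) ∣ (ℓ ^ (p - 1)) ^ n - 1 ^ n := by
    rw [one_pow]
    refine (Nat.modEq_iff_dvd' (Nat.one_le_pow _ _ (by omega))).1 ?_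
    rw [← ZMod.natCast_eq_natCast_iff]
    push_cast
    rw [← pow_mul, mul_comm, pow_mul, hn, one_pow]
  have hne0 : (ℓ ^ (p - 1)) ^ n - 1 ^ n ≠ 0 := by
    rw [one_pow]
    have h3 : 1 < (ℓ ^ (p - 1)) ^ n := Nat.one_lt_pow hn0.ne' hx1
    omega
  rw [padicValNat_dvd_iff_le hne0, padicValNat.pow_sub_pow hodd hx1 hdvd hnd hn0.ne'] at h2
  calc p ^ (k + 1) ≤ p ^ (padicValNat p (ℓ ^ (p - 1) - 1) + padicValNat p n) :=
        Nat.pow_le_pow_right hp.pos h2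
    _ = p ^ padicValNat p (ℓ ^ (p - 1) - 1) * p ^ padicValNat p n := pow_add _ _ _
    _ ≤ _ := Nat.mul_le_mul_left _ (Nat.le_of_dvd hn0 pow_padicValNat_dvd)

/-- The number of primes above `ℓ` in the cyclotomic fields of `p`-power conductor. -/
theorem primes_bound {p ℓ : ℕ} (hp : p.Prime) (hp2 : p ≠ 2) (hl : ℓ.Prime) :
    ∃ t : ℕ, ∀ (k : ℕ) (K : Type) [Field K] [NumberField K]
      [IsCyclotomicExtension {p ^ (k + 1)} ℚ K],
      (Ideal.primesOver (Ideal.span {(ℓ : ℤ)}) (𝓞 K)).ncard ≤ t := by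
  have hFp : Fact p.Prime := ⟨hp⟩
  have hFl : Fact ℓ.Prime := ⟨hl⟩
  by_cases hne : ℓ = p
  · subst hne
    exact ⟨1, fun k K _ _ _ => (IsCyclotomicExtension.Rat.ncard_primesOver_of_prime_pow ℓ k K).le⟩
  · obtain ⟨c, hc0, hc⟩ := ord_bound hp hp2 hl hne
    refine ⟨c, fun k K _ _ hK => ?_⟩
    have hNZ : NeZero (p ^ (k + 1)) := ⟨(pow_pos hp.pos _).ne'⟩
    have hG : IsGalois ℚ K := IsCyclotomicExtension.isGalois {p ^ (k + 1)} ℚ K
    have hnd : ¬ ℓ ∣ p ^ (k + 1) := fun h => by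
      exact hne ((Nat.prime_dvd_prime_iff_eq hl hp).1 (hl.dvd_of_dvd_pow h))
    have h1 := Ideal.ncard_primesOver_mul_ramificationIdxIn_mul_inertiaDegIn
      (Ideal.span {(ℓ : ℤ)}) (𝓞 K) Gal(K/ℚ)
    rw [IsCyclotomicExtension.Rat.ramificationIdxIn_eq_of_not_dvd (m := p ^ (k + 1)) ℓ K hnd,
      IsCyclotomicExtension.Rat.inertiaDegIn_eq_of_not_dvd (m := p ^ (k + 1)) ℓ K hnd, one_mul,
      IsGaloisGroup.card_eq_finrank Gal(K/ℚ) ℚ K, IsCyclotomicExtension.Rat.finrank (p ^ (k + 1)) K] at h1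
    have h2 : (p ^ (k + 1)).totient ≤ p ^ (k + 1) := Nat.totient_le _
    have h3 := hc k
    have h4 : 0 < orderOf (ℓ : ZMod (p ^ (k + 1))) := by
      rcases Nat.eq_zero_or_pos (orderOf (ℓ : ZMod (p ^ (k + 1)))) with h | h
      · rw [h, mul_zero] at h3
        exact absurd h3 (not_le.2 (pow_pos hp.pos _))
      · exact h
    exact Nat.le_of_mul_le_mul_right (h1.le.trans (h2.trans h3)) h4

/-- Valuation rings with the same restriction to `M` are conjugate over `M`. -/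
theorem conj_of_comap {ℓ : ℕ} (hl : ℓ.Prime) (M : IntermediateField ℚ Qb) [NumberField M]
    {A B : ValuationSubring Qb} (hB : (ℓ : Qb) ∈ B.nonunits)
    (h : A.comap (algebraMap M Qb) = B.comap (algebraMap M Qb)) :
    ∃ g ∈ M.fixingSubgroup, A = g • B := by
  have hint : ∀ (C : ValuationSubring Qb) (a : 𝓞 M), algebraMap (𝓞 M) M a ∈ C.comap (algebraMap M Qb) := by
    intro C a
    rw [ValuationSubring.mem_comap]
    apply integral_mem C
    exact (RingOfIntegers.isIntegral_coe a).map ((algebraMap M Qb).toIntAlgHom)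
  have hne : B.comap (algebraMap M Qb) ≠ ⊤ := by
    intro htop
    have h2 : ((ℓ : M))⁻¹ ∈ B.comap (algebraMap M Qb) := by rw [htop]; trivial
    rw [ValuationSubring.mem_comap, map_inv₀, map_natCast] at h2
    rw [ValuationSubring.mem_nonunits_iff_or] at hB
    rcases hB with h3 | h3
    · exact hl.ne_zero (by exact_mod_cast h3)
    · exact h3 h2
  obtain ⟨σ, hσ⟩ := Pool.Agent.H639R3.exists_aut (F := M) (L := Qb) (A := 𝓞 M) B A (hint B)
    hne h.symm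
  let τ : Gal(Qb/ℚ) := σ.restrictScalars ℚ
  have hτM : τ ∈ M.fixingSubgroup := by
    rw [IntermediateField.mem_fixingSubgroup_iff]
    intro x hx
    exact σ.commutes (⟨x, hx⟩ : M)
  refine ⟨τ⁻¹, inv_mem hτM, ?_⟩
  ext a
  rw [ValuationSubring.mem_pointwise_smul_iff_inv_smul_mem, inv_inv, hσ]
  rfl

/-- The number of orbits of `Gal(Qb/M)` on the valuation rings above `ℓ` is at most the number of primes
of `M` above `ℓ`. -/
theorem orbits {ℓ : ℕ} (hl : ℓ.Prime) (M : IntermediateField ℚ Qb) [NumberField M] :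
    ∃ T : Finset (ValuationSubring Qb),
      T.card ≤ (Ideal.primesOver (Ideal.span {(ℓ : ℤ)}) (𝓞 M)).ncard ∧
      ∀ A : ValuationSubring Qb, (ℓ : Qb) ∈ A.nonunits → ∃ B ∈ T, ∃ σ ∈ M.fixingSubgroup, A = σ • B := by
  classical
  have hFl : Fact ℓ.Prime := ⟨hl⟩
  have hint : ∀ (C : ValuationSubring Qb) (a : 𝓞 M), algebraMap (𝓞 M) M a ∈ C.comap (algebraMap M Qb) := by
    intro C a
    rw [ValuationSubring.mem_comap]
    apply integral_mem C
    exact (RingOfIntegers.isIntegral_coe a).map ((algebraMap M Qb).toIntAlgHom)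
  have hne : ∀ C : ValuationSubring Qb, (ℓ : Qb) ∈ C.nonunits → C.comap (algebraMap M Qb) ≠ ⊤ := by
    intro C hC htop
    have h2 : ((ℓ : M))⁻¹ ∈ C.comap (algebraMap M Qb) := by rw [htop]; trivial
    rw [ValuationSubring.mem_comap, map_inv₀, map_natCast] at h2
    rw [ValuationSubring.mem_nonunits_iff_or] at hC
    rcases hC with h3 | h3
    · exact hl.ne_zero (by exact_mod_cast h3)
    · exact h3 h2
  let f : {A : ValuationSubring Qb // (ℓ : Qb) ∈ A.nonunits} → Ideal (𝓞 M) := fun A =>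
    Pool.Agent.H639R3.cent (A.1.comap (algebraMap M Qb)) (hint A.1)
  have hf : Set.range f ⊆ Ideal.primesOver (Ideal.span {(ℓ : ℤ)}) (𝓞 M) := by
    rintro _ ⟨A, rfl⟩
    have hP : (f A).IsPrime := Pool.Agent.H639R3.cent_isPrime _ _
    refine ⟨hP, ⟨?_⟩⟩
    have hmax : (Ideal.span {(ℓ : ℤ)}).IsMaximal :=
      PrincipalIdealRing.isMaximal_of_irreducible (Nat.prime_iff_prime_int.1 hl).irreducible
    apply hmax.eq_of_le
    · exact (Ideal.IsPrime.under ℤ (f A)).ne_top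
    · rw [Ideal.span_singleton_le_iff_mem, Ideal.under_def, Ideal.mem_comap]
      show algebraMap ℤ (𝓞 M) ℓ ∈ Pool.Agent.H639R3.cent _ _
      rw [Pool.Agent.H639R3.mem_cent, Pool.Agent.H639R3.comap_val_lt_one]
      have h1 := (ValuationSubring.mem_nonunits_iff A.1).1 A.2
      simpa using h1
  have hfin : (Ideal.primesOver (Ideal.span {(ℓ : ℤ)}) (𝓞 M)).Finite :=
    Algebra.QuasiFinite.finite_primesOver _
  have hfin' : (Set.range f).Finite := hfin.subset hf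
  have hch : ∀ P : Set.range f, ∃ A, f A = P.1 := fun P => P.2
  choose g hg using hch
  have : Fintype (Set.range f) := hfin'.fintype
  refine ⟨(Finset.univ : Finset (Set.range f)).image fun P => (g P).1, ?_, ?_⟩
  · refine Finset.card_image_le.trans ?_
    rw [Finset.card_univ, Set.fintypeCard_eq_ncard]
    exact Set.ncard_le_ncard hf hfin
  · intro A hA
    refine ⟨(g ⟨f ⟨A, hA⟩, ⟨A, hA⟩, rfl⟩).1, Finset.mem_image.2 ⟨_, Finset.mem_univ _, rfl⟩, ?_⟩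
    have h1 := hg ⟨f ⟨A, hA⟩, ⟨A, hA⟩, rfl⟩
    generalize g ⟨f ⟨A, hA⟩, ⟨A, hA⟩, rfl⟩ = B at h1
    apply conj_of_comap hl M B.2
    exact (Pool.Agent.H639R3.eq_of_cent_eq _ _ (hint _) (hint _) (hne _ B.2) (hne _ hA) h1).symm

/-- **FD.** -/
theorem FD_ok : Pool.Agent.W2helper81.IW.P_FD := by
  intro p hp hp2 ℓ hl
  obtain ⟨t, ht⟩ := primes_bound hp hp2 hl
  refine ⟨t, fun m R hR => ?_⟩
  obtain ⟨-, N, hN⟩ := hR
  have hNZ : NeZero (p ^ (N + 1)) := ⟨(pow_pos hp.pos _).ne'⟩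
  have hpQ : NeZero ((p ^ (N + 1) : ℕ) : Qb) := ⟨by exact_mod_cast (pow_pos hp.pos (N + 1)).ne'⟩
  obtain ⟨ζ, hζ⟩ := HasEnoughRootsOfUnity.exists_primitiveRoot Qb (p ^ (N + 1))
  have hcyc : IsCyclotomicExtension {p ^ (N + 1)} ℚ (adjoin ℚ {ζ}) :=
    hζ.intermediateField_adjoin_isCyclotomicExtension ℚ
  have hnf : NumberField (adjoin ℚ {ζ}) := IsCyclotomicExtension.numberField {p ^ (N + 1)} ℚ _
  have hle : R ≤ adjoin ℚ {ζ} := by
    refine hN.trans (adjoin_le_iff.2 ?_)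
    intro z hz
    have hz1 : z ^ p ^ (N + 1) = 1 := by
      have hz2 : z ^ p ^ N = 1 := hz
      rw [pow_succ, pow_mul, hz2, one_pow]
    obtain ⟨i, -, rfl⟩ := hζ.eq_pow_of_pow_eq_one hz1
    exact pow_mem (mem_adjoin_simple_self ℚ ζ) i
  obtain ⟨T, hT, h⟩ := orbits hl (adjoin ℚ {ζ})
  refine ⟨T, hT.trans (ht N _), fun A hA => ?_⟩
  obtain ⟨B, hB, σ, hσ, hAB⟩ := h A hA
  exact ⟨B, hB, σ, fixingSubgroup_le hle hσ, hAB⟩

end Pool.Agent.W2helper92.IW
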